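import Pool.Agent.N774.LR.Rel

/-!
# Sums with characters
-/

set_option autoImplicit false

open Real

namespace Pool.Agent.N774.LR

theorem sum_prog (N m : ℕ) (f : ℕ → ℂ) :
    ∑ y ∈ Finset.range (N * m), f y = ∑ x ∈ Finset.range m, ∑ j ∈ Finset.range N, f (x + j * m) := by
  induction N with
  | zero => simp
  | succ N ih =>
    rw [Nat.succ_mul, Finset.sum_range_add, ih, ← Finset.sum_add_distrib]
    refine Finset.sum_congr rfl fun x _ => ?_
    rw [Finset.sum_range_succ, add_comm (N * m) x]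

theorem sum_dvd (p n : ℕ) (hp : 0 < p) (f : ℕ → ℂ) :
    ∑ y ∈ Finset.range (n * p), (if p ∣ y then f y else 0) = ∑ w ∈ Finset.range n, f (w * p) := by
  rw [sum_prog n p, Finset.sum_eq_single 0]
  · refine Finset.sum_congr rfl fun j _ => ?_
    rw [zero_add, if_pos (Dvd.intro_left j rfl)]
  · intro x hx hx0
    rw [Finset.mem_range] at hx
    refine Finset.sum_eq_zero fun j _ => ?_
    rw [if_neg]
    intro h
    have h1 : p ∣ x := (Nat.dvd_add_left (Dvd.intro_left j rfl)).1 h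
    exact hx0 (Nat.eq_zero_of_dvd_of_lt h1 hx)
  · intro h
    exact absurd (Finset.mem_range.2 hp) h

variable {l : ℝ →ₗ[ℚ] ℂ} (hl : ∀ x ∈ Lam K0, l x = 0)

include hl

/-- a character sum does not change if the denominator is multiplied -/
theorem S_mul {m : ℕ} (hm : 1 < m) {N : ℕ} (hN : 0 < N) (ψ : DirichletCharacter ℂ m) :
    ∑ y ∈ Finset.range (N * m), ψ (y : ZMod m) * H l ((y : ℝ) / ((N * m : ℕ) : ℝ)) =
      ∑ x ∈ Finset.range m, ψ (x : ZMod m) * H l ((x : ℝ) / m) := by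
  have hm' : (m : ℝ) ≠ 0 := by positivity
  have hN' : (N : ℝ) ≠ 0 := by positivity
  have : Fact (1 < m) := ⟨hm⟩
  rw [sum_prog N m]
  refine Finset.sum_congr rfl fun x _ => ?_
  have h1 : ∀ j ∈ Finset.range N, ψ ((x + j * m : ℕ) : ZMod m) * H l (((x + j * m : ℕ) : ℝ) / ((N * m : ℕ) : ℝ)) =
      ψ (x : ZMod m) * H l (((x : ℝ) / m + j) / N) := by
    intro j _
    have h2 : ((x + j * m : ℕ) : ZMod m) = (x : ZMod m) := by
      push_cast
      simp
    rw [h2]
    congr 2
    push_cast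
    field_simp
  rw [Finset.sum_congr rfl h1, ← Finset.mul_sum]
  rcases Nat.eq_zero_or_pos x with hx | hx
  · subst hx
    have : ψ ((0 : ℕ) : ZMod m) = 0 := by
      rw [Nat.cast_zero]
      exact ψ.map_nonunit not_isUnit_zero
    rw [this, zero_mul, zero_mul]
  · congr 1
    have h3 := H_mul hl hN (x := (x : ℚ) / m) (by positivity)
    push_cast at h3
    exact h3.symm

/-- the sum over the classes prime to `q`: an Euler factor appears -/
theorem S_unit {m p v q : ℕ} (hm : 1 < m) (hp : p.Prime) (hq : q = p ^ (v + 1) * m)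
    (ψ : DirichletCharacter ℂ m) :
    ∑ y ∈ Finset.range q, (if Nat.Coprime y q then ψ (y : ZMod m) * H l ((y : ℝ) / q) else 0) =
      (1 - ψ (p : ZMod m)) * ∑ x ∈ Finset.range m, ψ (x : ZMod m) * H l ((x : ℝ) / m) := by
  have hp0 : (p : ℝ) ≠ 0 := by exact_mod_cast hp.ne_zero
  have h1 : ∀ y ∈ Finset.range q, (if Nat.Coprime y q then ψ (y : ZMod m) * H l ((y : ℝ) / q) else 0) =
      ψ (y : ZMod m) * H l ((y : ℝ) / q) - (if p ∣ y then ψ (y : ZMod m) * H l ((y : ℝ) / q) else 0) := by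
    intro y _
    by_cases h2 : Nat.Coprime y m
    · by_cases h3 : p ∣ y
      · rw [if_pos h3, sub_self, if_neg]
        intro h4
        rw [hq] at h4
        have h5 := Nat.Coprime.coprime_dvd_right (Dvd.intro _ rfl : p ^ (v + 1) ∣ p ^ (v + 1) * m) h4
        have h6 := Nat.Coprime.coprime_dvd_right (dvd_pow_self p (Nat.succ_ne_zero v)) h5
        have h7 := Nat.dvd_gcd h3 dvd_rfl
        rw [h6] at h7
        exact hp.one_lt.ne' (Nat.dvd_one.1 h7)
      · rw [if_neg h3, sub_zero, if_pos]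
        rw [hq]
        refine Nat.Coprime.mul_right (Nat.Coprime.pow_right _ ?_) h2
        exact ((Nat.Prime.coprime_iff_not_dvd hp).2 h3).symm
    · have h3 : ψ (y : ZMod m) = 0 := by
        apply ψ.map_nonunit
        rw [ZMod.isUnit_iff_coprime]
        exact h2
      have h4 : ¬ Nat.Coprime y q := fun h4 => h2 (Nat.Coprime.coprime_dvd_right (hq ▸ Dvd.intro_left _ rfl) h4)
      rw [if_neg h4, h3]
      simp
  rw [Finset.sum_congr rfl h1, Finset.sum_sub_distrib]
  have h2 : ∑ y ∈ Finset.range q, ψ (y : ZMod m) * H l ((y : ℝ) / q) =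
      ∑ x ∈ Finset.range m, ψ (x : ZMod m) * H l ((x : ℝ) / m) := by
    rw [hq]
    exact S_mul hl hm (pow_pos hp.pos _) ψ
  have h3 : ∑ y ∈ Finset.range q, (if p ∣ y then ψ (y : ZMod m) * H l ((y : ℝ) / q) else 0) =
      ψ (p : ZMod m) * ∑ x ∈ Finset.range m, ψ (x : ZMod m) * H l ((x : ℝ) / m) := by
    have hq' : q = (p ^ v * m) * p := by
      rw [hq, pow_succ]
      ring
    rw [hq', sum_dvd p (p ^ v * m) hp.pos, ← S_mul hl hm (pow_pos hp.pos v) ψ, Finset.mul_sum]
    refine Finset.sum_congr rfl fun w _ => ?_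
    have h4 : ((w * p : ℕ) : ZMod m) = (p : ZMod m) * (w : ZMod m) := by
      push_cast
      ring
    rw [h4, map_mul, mul_assoc]
    congr 3
    push_cast
    have hm' : (m : ℝ) ≠ 0 := by positivity
    field_simp
  rw [h2, h3]
  ring

/-- the sum is zero for even characters -/
theorem S_even {q : ℕ} (hq : 1 < q) (χ : DirichletCharacter ℂ q) (hχ : χ (-1) = 1) :
    ∑ y ∈ Finset.range q, χ (y : ZMod q) * H l ((y : ℝ) / q) = 0 := by
  have hq' : (q : ℝ) ≠ 0 := by positivity
  have : Fact (1 < q) := ⟨hq⟩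
  obtain ⟨k, rfl⟩ := Nat.exists_eq_succ_of_ne_zero (show q ≠ 0 by omega)
  rw [Finset.sum_range_succ']
  have h0 : χ ((0 : ℕ) : ZMod k.succ) = 0 := by
    rw [Nat.cast_zero]
    exact χ.map_nonunit not_isUnit_zero
  rw [h0, zero_mul, add_zero]
  have h1 : ∑ y ∈ Finset.range k, χ ((y + 1 : ℕ) : ZMod k.succ) * H l (((y + 1 : ℕ) : ℝ) / (k.succ : ℕ)) =
      ∑ y ∈ Finset.range k, χ ((y + 1 : ℕ) : ZMod k.succ) * H l (1 - ((y + 1 : ℕ) : ℝ) / (k.succ : ℕ)) := by
    rw [← Finset.sum_range_reflect]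
    refine Finset.sum_congr rfl fun y hy => ?_
    rw [Finset.mem_range] at hy
    have h2 : k - 1 - y + 1 = k - y := by omega
    rw [h2]
    have h3 : ((k - y : ℕ) : ZMod k.succ) = -1 * ((y + 1 : ℕ) : ZMod k.succ) := by
      have h4 : ((k - y + (y + 1) : ℕ) : ZMod k.succ) = 0 := by
        rw [show k - y + (y + 1) = k.succ by omega]
        exact ZMod.natCast_self _
      push_cast at h4 ⊢
      linear_combination h4
    rw [h3, map_mul, hχ, one_mul]
    congr 2
    rw [Nat.cast_sub hy.le]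
    push_cast
    field_simp
    ring
  have h2 : ∑ y ∈ Finset.range k, χ ((y + 1 : ℕ) : ZMod k.succ) * H l (((y + 1 : ℕ) : ℝ) / (k.succ : ℕ)) +
      ∑ y ∈ Finset.range k, χ ((y + 1 : ℕ) : ZMod k.succ) * H l (1 - ((y + 1 : ℕ) : ℝ) / (k.succ : ℕ)) = 0 := by
    rw [← Finset.sum_add_distrib]
    refine Finset.sum_eq_zero fun j hj => ?_
    rw [Finset.mem_range] at hj
    have h4 := H_refl hl (x := ((j + 1 : ℕ) : ℚ) / (k.succ : ℕ)) (by positivity) (by
      rw [div_lt_one (by positivity)]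
      push_cast
      have : (j : ℚ) < k := by exact_mod_cast hj
      linarith)
    push_cast at h4 ⊢
    rw [← mul_add, h4, mul_zero]
  rw [← h1] at h2
  have h4 : (2 : ℂ) * ∑ y ∈ Finset.range k, χ ((y + 1 : ℕ) : ZMod k.succ) * H l (((y + 1 : ℕ) : ℝ) / (k.succ : ℕ)) = 0 := by
    linear_combination h2
  simpa using h4

end Pool.Agent.N774.LR
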