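import Pool.Agent.N774.LR.Trd

/-!
# The number of the surviving characters
-/

set_option autoImplicit false

open Real Cardinal

namespace Pool.Agent.N774.LR

/-- half of the characters are odd -/
theorem card_odd {q : ℕ} (hq : 2 < q) : {χ : DirichletCharacter ℂ q | χ.Odd}.ncard = q.totient / 2 := by
  classical
  have : NeZero q := ⟨by omega⟩
  have hne : (-1 : ZMod q) ≠ 1 := by
    have : Fact (2 < q) := ⟨hq⟩
    exact ZMod.neg_one_ne_one
  have h1 := DirichletCharacter.sum_characters_eq_zero ℂ hne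
  have h2 : ∀ χ : DirichletCharacter ℂ q, χ (-1) = if χ.Odd then -1 else 1 := by
    intro χ
    split_ifs with h
    · exact h
    · rcases χ.even_or_odd with h' | h'
      · exact h'
      · exact absurd h' h
  rw [Finset.sum_congr rfl (fun χ _ => h2 χ), Finset.sum_ite] at h1
  simp only [Finset.sum_const, nsmul_eq_mul, mul_neg, mul_one] at h1
  have h3 := Finset.card_filter_add_card_filter_not (s := (Finset.univ : Finset (DirichletCharacter ℂ q)))
    (fun χ => χ.Odd)
  rw [Finset.card_univ, ← Nat.card_eq_fintype_card, DirichletCharacter.card_eq_totient_of_hasEnoughRootsOfUnity] at h3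
  have h4 : ((Finset.univ : Finset (DirichletCharacter ℂ q)).filter (fun χ => χ.Odd)).card =
      ((Finset.univ : Finset (DirichletCharacter ℂ q)).filter (fun χ => ¬ χ.Odd)).card := by
    have h5 : (((Finset.univ : Finset (DirichletCharacter ℂ q)).filter (fun χ => χ.Odd)).card : ℂ) =
      ((Finset.univ : Finset (DirichletCharacter ℂ q)).filter (fun χ => ¬ χ.Odd)).card := by
      linear_combination -h1
    exact_mod_cast h5
  have h5 : {χ : DirichletCharacter ℂ q | χ.Odd} =
      (((Finset.univ : Finset (DirichletCharacter ℂ q)).filter (fun χ => χ.Odd) : Finset _) : Set _) := by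
    ext χ
    simp
  rw [h5, Set.ncard_coe_finset]
  omega

/-- a prime with a vanishing Euler factor -/
theorem exists_bad {q p : ℕ} (hq : 2 < q) (hp : p.Prime) (hk : ∀ k : ℕ, ¬ q / p ^ q.factorization p ∣ p ^ k + 1) :
    ∃ χ : DirichletCharacter ℂ q, χ.Odd ∧ χ.primitiveCharacter p = 1 := by
  have : NeZero q := ⟨by omega⟩
  have : Fact p.Prime := ⟨hp⟩
  have hcop : Nat.Coprime p (q / p ^ q.factorization p) := Nat.coprime_ordCompl hp (by omega)
  have hmq : q / p ^ q.factorization p ∣ q := Nat.ordCompl_dvd q p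
  have hm0 : NeZero (q / p ^ q.factorization p) := ⟨(Nat.ordCompl_pos p (show q ≠ 0 by omega)).ne'⟩
  obtain ⟨m, hm⟩ : ∃ m, m = q / p ^ q.factorization p := ⟨_, rfl⟩
  set u : (ZMod (q / p ^ q.factorization p))ˣ := ZMod.unitOfCoprime p hcop with hu
  have h1 : (-1 : (ZMod (q / p ^ q.factorization p))ˣ) ∉ Subgroup.zpowers u := by
    intro h
    rw [← mem_powers_iff_mem_zpowers, Submonoid.mem_powers_iff] at h
    obtain ⟨k, h⟩ := h
    apply hk k
    have h2 := congrArg (Units.val) h
    rw [Units.val_pow_eq_pow_val, hu, ZMod.coe_unitOfCoprime] at h2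
    have h3 : ((p ^ k + 1 : ℕ) : ZMod (q / p ^ q.factorization p)) = 0 := by
      push_cast
      rw [h2]
      simp
    exact (ZMod.natCast_eq_zero_iff _ _).1 h3
  have h2 : ((-1 : (ZMod (q / p ^ q.factorization p))ˣ) : (ZMod (q / p ^ q.factorization p))ˣ ⧸ Subgroup.zpowers u) ≠ 1 := by
    rw [Ne, QuotientGroup.eq_one_iff]
    exact h1
  have : NeZero (Monoid.exponent ((ZMod (q / p ^ q.factorization p))ˣ ⧸ Subgroup.zpowers u)) :=
    ⟨Monoid.exponent_ne_zero_of_finite (G := (ZMod (q / p ^ q.factorization p))ˣ ⧸ Subgroup.zpowers u)⟩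
  obtain ⟨φ, hφ⟩ := CommGroup.exists_apply_ne_one_of_hasEnoughRootsOfUnity _ ℂ h2
  set ψ : DirichletCharacter ℂ (q / p ^ q.factorization p) :=
    MulChar.ofUnitHom (φ.comp (QuotientGroup.mk' (Subgroup.zpowers u))) with hψ
  have h3 : ψ (p : ZMod (q / p ^ q.factorization p)) = 1 := by
    have h4 : ψ ((u : (ZMod (q / p ^ q.factorization p))ˣ) : ZMod (q / p ^ q.factorization p)) = 1 := by
      rw [hψ, MulChar.ofUnitHom_coe, MonoidHom.comp_apply, QuotientGroup.mk'_apply,
        (QuotientGroup.eq_one_iff u).2 (Subgroup.mem_zpowers u), map_one]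
      rfl
    rwa [hu, ZMod.coe_unitOfCoprime] at h4
  have h4 : ψ (-1) ≠ 1 := by
    intro h
    apply hφ
    have h5 : ψ ((-1 : (ZMod (q / p ^ q.factorization p))ˣ) : ZMod (q / p ^ q.factorization p)) = 1 := by
      rw [Units.val_neg, Units.val_one]
      exact h
    rw [hψ, MulChar.ofUnitHom_coe, MonoidHom.comp_apply, QuotientGroup.mk'_apply] at h5
    exact Units.ext h5
  have h5 : ψ (-1) = -1 := by
    rcases ψ.even_or_odd with h | h
    · exact absurd h h4
    · exact h
  refine ⟨DirichletCharacter.changeLevel hmq ψ, ?_, ?_⟩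
  · have h6 := DirichletCharacter.changeLevel_eq_cast_of_dvd' ψ hmq (a := -1) (isCoprime_one_left.neg_left)
    push_cast at h6
    rw [DirichletCharacter.Odd, h6, h5]
  · rw [← DirichletCharacter.mem_subgroupOfPrimitiveMapToOne_iff, DirichletCharacter.subgroupOfPrimitiveMapToOne,
      Subgroup.mem_map]
    refine ⟨ψ, ?_, rfl⟩
    rw [DirichletCharacter.mem_annihilator_iff]
    rintro _ rfl
    rw [ZMod.coe_unitOfCoprime]
    exact h3

theorem card_surv_lt {q p : ℕ} (hq : 2 < q) (hp : p.Prime) (hpq : p ∣ q)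
    (hk : ∀ k : ℕ, ¬ q / p ^ q.factorization p ∣ p ^ k + 1) : 1 + Nat.card (Surv q) ≤ q.totient / 2 := by
  have : NeZero q := ⟨by omega⟩
  obtain ⟨χ, h1, h2⟩ := exists_bad hq hp hk
  have h3 : Surv q ⊂ {χ : DirichletCharacter ℂ q | χ.Odd} := by
    refine ⟨fun χ hχ => hχ.1, fun h => ?_⟩
    exact (h h1).2 p hp hpq h2
  have h4 := Set.ncard_lt_ncard h3 (Set.toFinite _)
  rw [card_odd hq] at h4
  rw [Nat.card_coe_set_eq]
  omega

theorem card_surv_le {q : ℕ} (hq : 2 < q) : Nat.card (Surv q) ≤ q.totient / 2 := by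
  have : NeZero q := ⟨by omega⟩
  rw [Nat.card_coe_set_eq, ← card_odd hq]
  exact Set.ncard_le_ncard (fun χ hχ => hχ.1) (Set.toFinite _)

theorem seven (k : ℕ) : ¬ 14 / 2 ^ (14 : ℕ).factorization 2 ∣ 2 ^ k + 1 := by
  have h1 : (14 : ℕ).factorization 2 = 1 := by
    have : (14 : ℕ) = 2 ^ 1 * 7 := by norm_num
    rw [this, Nat.factorization_mul (by norm_num) (by norm_num), Nat.Prime.factorization_pow Nat.prime_two]
    simp [Nat.factorization_eq_zero_of_not_dvd]
  rw [h1]
  norm_num
  have h2 : ∀ k : ℕ, 2 ^ k % 7 = 1 ∨ 2 ^ k % 7 = 2 ∨ 2 ^ k % 7 = 4 := by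
    intro k
    induction k with
    | zero => simp
    | succ k ih =>
      rw [pow_succ]
      omega
  have := h2 k
  omega

end Pool.Agent.N774.LR
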