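import Pool.Agent.H374R2.CofC

/-!
# Almost all integers have a prime divisor with a vanishing Euler factor
-/

set_option autoImplicit false

namespace Pool.Agent.N774.LR

open Pool.Agent.H374R2

/-- some prime divisor `p` of `q` has no power which is `-1` modulo the part of `q` prime to `p` -/
def Crit (q : ℕ) : Prop := ∃ p : ℕ, p.Prime ∧ p ∣ q ∧ ∀ k : ℕ, ¬ q / p ^ q.factorization p ∣ p ^ k + 1

theorem few_small {ε : ℝ} (hε : 0 < ε) : ∃ P₀ N₀ : ℕ, ∀ N : ℕ, N₀ ≤ N →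
    (({B : ℕ | ∀ p : ℕ, p ≤ P₀ → p.Prime → p ≡ 1 [MOD 2] → ¬ p ∣ B} ∩ Set.Ioc 0 N).ncard : ℝ) ≤ ε * N := by
  obtain ⟨F, hF, hsum⟩ := Cof.exists_primes_class 2 (by norm_num) 1 (by norm_num) (-Real.log (ε / 2))
  set R : ℝ := ∏ p ∈ F, (({x : ZMod p | x ≠ 0}.ncard : ℕ) : ℝ) with hR
  set M : ℝ := ∏ p ∈ F, (p : ℝ) with hM
  have hR0 : 0 ≤ R := Finset.prod_nonneg (fun _ _ => by positivity)
  have hM0 : 0 < M := Finset.prod_pos (fun p hp => by exact_mod_cast (hF p hp).1.pos)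
  have hRM : R / M ≤ ε / 2 := by
    have h1 := Cof.prod_le_exp F (fun p hp => (hF p hp).1)
    calc R / M ≤ _ := h1
      _ ≤ Real.exp (Real.log (ε / 2)) := Real.exp_le_exp.mpr (by linarith)
      _ = ε / 2 := Real.exp_log (by positivity)
  obtain ⟨N₀, hN₀⟩ := exists_nat_ge (R / (ε / 2))
  refine ⟨F.sup id, N₀, fun N hN => ?_⟩
  set E : Set ℕ := {B : ℕ | ∀ p : ℕ, p ≤ F.sup id → p.Prime → p ≡ 1 [MOD 2] → ¬ p ∣ B} with hE
  have h1 := Cof.count1 F (fun p hp => (hF p hp).1) (fun p => {x : ZMod p | x ≠ 0}) E (by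
      intro m hm p hp
      have := hm p (Finset.le_sup (f := id) hp) (hF p hp).1 (hF p hp).2
      show (m : ZMod p) ≠ 0
      rwa [Ne, ZMod.natCast_eq_zero_iff]) N
  have h2 : ((E ∩ Set.Ioc 0 N).ncard : ℝ) ≤ R * ((N : ℝ) / M + 1) := by
    calc _ ≤ (((∏ p ∈ F, {x : ZMod p | x ≠ 0}.ncard) * (N / (∏ p ∈ F, p) + 1) : ℕ) : ℝ) := by
          exact_mod_cast h1
      _ = R * (((N / (∏ p ∈ F, p) : ℕ) : ℝ) + 1) := by rw [hR]; push_cast; ring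
      _ ≤ _ := by
        apply mul_le_mul_of_nonneg_left _ hR0
        have h3 : ((N / (∏ p ∈ F, p) : ℕ) : ℝ) ≤ (N : ℝ) / ((∏ p ∈ F, p : ℕ) : ℝ) := Nat.cast_div_le
        push_cast at h3
        linarith
  have h3 : R ≤ (ε / 2) * N := by
    have h4 : R / (ε / 2) ≤ N := hN₀.trans (by exact_mod_cast hN)
    rwa [div_le_iff₀ (by positivity), mul_comm] at h4
  calc _ ≤ R * ((N : ℝ) / M + 1) := h2
    _ = (R / M) * N + R := by field_simp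
    _ ≤ (ε / 2) * N + (ε / 2) * N := by
      have : (R / M) * N ≤ (ε / 2) * N := mul_le_mul_of_nonneg_right hRM (by positivity)
      linarith
    _ = ε * N := by ring

theorem crit_of {q r p : ℕ} (hr : r.Prime) (hr2 : r ≡ 1 [MOD 2]) (hrq : r ∣ q) (hp : p.Prime) (hpr : p ≡ 1 [MOD r])
    (hpq : p ∣ q) : Crit q := by
  refine ⟨p, hp, hpq, fun k hk => ?_⟩
  have hne : r ≠ p := by
    rintro rfl
    have h1 : 0 % r = 1 % r := by
      have : r % r = 1 % r := hpr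
      rwa [Nat.mod_self, ← Nat.zero_mod r] at this
    rw [Nat.zero_mod, Nat.mod_eq_of_lt hr.one_lt] at h1
    exact absurd h1 (by norm_num)
  have h1 : r ∣ q / p ^ q.factorization p := by
    apply Nat.dvd_ordCompl_of_dvd_not_dvd hrq
    intro h
    exact hne ((Nat.prime_dvd_prime_iff_eq hp hr).1 h).symm
  have h2 : r ∣ p ^ k + 1 := h1.trans hk
  have h3 : p ^ k + 1 ≡ 1 + 1 [MOD r] := by
    have := (hpr.pow k).add_right 1
    rwa [one_pow] at this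
  have h4 : r ∣ 1 + 1 := (Nat.modEq_zero_iff_dvd.1 (h3.symm.trans (Nat.modEq_zero_iff_dvd.2 h2)))
  have h5 : r = 2 := (Nat.prime_dvd_prime_iff_eq hr Nat.prime_two).1 h4
  rw [h5] at hr2
  exact absurd hr2 (by decide)

theorem crit_density {ε : ℝ} (hε : 0 < ε) : ∃ N₀ : ℕ, ∀ N : ℕ, N₀ ≤ N →
    (({q : ℕ | ¬ Crit q} ∩ Set.Ioc 0 N).ncard : ℝ) ≤ ε * N := by
  obtain ⟨P₀, N₁, h1⟩ := few_small (show (0 : ℝ) < ε / 2 by positivity)
  set s : Finset ℕ := (Finset.range (P₀ + 1)).filter fun r => r.Prime ∧ r ≡ 1 [MOD 2] with hs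
  have h2 : Cof.NatNull (⋃ r ∈ s, {C | ∀ p : ℕ, p.Prime → p ≡ 1 [MOD r] → ¬ p ∣ C}) := by
    refine Cof.natNull_biUnion s _ fun r hr => ?_
    rw [hs, Finset.mem_filter] at hr
    exact Cof.natNull_avoid r hr.2.1.pos 1 (Nat.coprime_one_left r)
  obtain ⟨N₂, h3⟩ := h2 (ε / 2) (by positivity)
  refine ⟨max N₁ N₂, fun N hN => ?_⟩
  have h4 := h1 N ((le_max_left _ _).trans hN)
  have h5 := h3 N ((le_max_right _ _).trans hN)
  have h6 : {q : ℕ | ¬ Crit q} ∩ Set.Ioc 0 N ⊆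
      ({B : ℕ | ∀ p : ℕ, p ≤ P₀ → p.Prime → p ≡ 1 [MOD 2] → ¬ p ∣ B} ∩ Set.Ioc 0 N) ∪
      ((⋃ r ∈ s, {C | ∀ p : ℕ, p.Prime → p ≡ 1 [MOD r] → ¬ p ∣ C}) ∩ Set.Ioc 0 N) := by
    rintro q ⟨hq, hqN⟩
    by_cases h7 : q ∈ {B : ℕ | ∀ p : ℕ, p ≤ P₀ → p.Prime → p ≡ 1 [MOD 2] → ¬ p ∣ B}
    · exact Or.inl ⟨h7, hqN⟩
    · refine Or.inr ⟨?_, hqN⟩
      simp only [Set.mem_ofPred_eq] at h7
      push Not at h7
      obtain ⟨r, hr1, hr2, hr3, hr4⟩ := h7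
      rw [Set.mem_iUnion₂]
      refine ⟨r, by rw [hs, Finset.mem_filter, Finset.mem_range]; exact ⟨by omega, hr2, hr3⟩, fun p hp hpr hpq => ?_⟩
      exact hq (crit_of hr2 hr3 hr4 hp hpr hpq)
  have hfin : ∀ S : Set ℕ, (S ∩ Set.Ioc 0 N).Finite := fun S => (Set.finite_Ioc 0 N).subset Set.inter_subset_right
  have h7 := Set.ncard_le_ncard h6 ((hfin _).union (hfin _))
  have h8 := h7.trans (Set.ncard_union_le _ _)
  have h9 : (({q : ℕ | ¬ Crit q} ∩ Set.Ioc 0 N).ncard : ℝ) ≤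
      ({B : ℕ | ∀ p : ℕ, p ≤ P₀ → p.Prime → p ≡ 1 [MOD 2] → ¬ p ∣ B} ∩ Set.Ioc 0 N).ncard +
      ((⋃ r ∈ s, {C | ∀ p : ℕ, p.Prime → p ≡ 1 [MOD r] → ¬ p ∣ C}) ∩ Set.Ioc 0 N).ncard := by
    exact_mod_cast h8
  linarith

end Pool.Agent.N774.LR
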