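import Pool.Agent.N774.LR.Four

/-!
# The rank of the Gamma values
-/

set_option autoImplicit false

open Real

namespace Pool.Agent.N774.LR

/-- the class of `log Γ(u / q)` modulo the logarithms of the numbers which are algebraic over `ℚ(π)` -/
noncomputable def cls (q : ℕ) (u : (ZMod q)ˣ) : ℝ ⧸ Lam K0 :=
  Submodule.Quotient.mk (Real.log (Real.Gamma (((u : ZMod q).val : ℝ) / q)))

/-- a small set of classes generates all -/
theorem exists_gen {q : ℕ} (hq : 2 < q) : ∃ T : Finset (ZMod q)ˣ, T.card ≤ Nat.card (Surv q) ∧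
    ∀ u, cls q u ∈ Submodule.span ℚ (cls q '' (T : Set (ZMod q)ˣ)) := by
  classical
  have : NeZero q := ⟨by omega⟩
  obtain ⟨κ, a, ha, hspan, hli⟩ := exists_linearIndependent' ℚ (cls q)
  have : Fintype κ := Fintype.ofInjective a ha
  refine ⟨Finset.univ.image a, ?_, ?_⟩
  swap
  · intro u
    have h1 : cls q u ∈ Submodule.span ℚ (Set.range (cls q)) := Submodule.subset_span ⟨u, rfl⟩
    rw [← hspan] at h1
    rw [Finset.coe_image, Finset.coe_univ, Set.image_univ, ← Set.range_comp]
    exact h1
  rw [Finset.card_image_of_injective _ ha, Finset.card_univ]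
  -- the coordinate functionals
  have hf : ∀ k : κ, ∃ f : (ℝ ⧸ Lam K0) →ₗ[ℚ] ℚ, ∀ j, f (cls q (a j)) = if j = k then 1 else 0 := by
    intro k
    obtain ⟨f, hf⟩ := LinearMap.exists_extend ((Finsupp.lapply k).comp (hli.repr : _ →ₗ[ℚ] (κ →₀ ℚ)))
    refine ⟨f, fun j => ?_⟩
    have h1 : cls q (a j) ∈ Submodule.span ℚ (Set.range (cls q ∘ a)) := Submodule.subset_span ⟨j, rfl⟩
    have h2 := LinearMap.congr_fun hf ⟨cls q (a j), h1⟩
    have h3 : hli.repr ⟨cls q (a j), h1⟩ = Finsupp.single j 1 := hli.repr_eq_single j _ rfl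
    simp only [LinearMap.comp_apply, Submodule.subtype_apply] at h2
    rw [h2]
    change (hli.repr ⟨cls q (a j), h1⟩) k = _
    rw [h3, Finsupp.single_apply]
  choose f hf using hf
  set L : κ → (ℝ →ₗ[ℚ] ℂ) := fun k => (Algebra.linearMap ℚ ℂ).comp ((f k).comp (Lam K0).mkQ) with hL
  have hL0 : ∀ k, ∀ x ∈ Lam K0, L k x = 0 := by
    intro k x hx
    simp only [hL, LinearMap.comp_apply]
    have : (Lam K0).mkQ x = 0 := by
      rw [Submodule.mkQ_apply, Submodule.Quotient.mk_eq_zero]
      exact hx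
    rw [this]
    simp
  set F : κ → ((ZMod q)ˣ → ℂ) := fun k b => H (L k) (((b : ZMod q).val : ℝ) / q) with hF
  have hFa : ∀ k j, F k (a j) = if j = k then 1 else 0 := by
    intro k j
    have h1 : F k (a j) = algebraMap ℚ ℂ (f k (cls q (a j))) := rfl
    rw [h1, hf]
    split_ifs <;> simp
  set W : Submodule ℂ ((ZMod q)ˣ → ℂ) :=
    Submodule.span ℂ ((fun χ : DirichletCharacter ℂ q => fun b : (ZMod q)ˣ => χ (b : ZMod q)) '' Surv q) with hW
  have hFW : ∀ k, F k ∈ W := fun k => mem_span (hL0 k) hq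
  have hliF : LinearIndependent ℂ F := by
    rw [Fintype.linearIndependent_iff]
    intro c hc k
    have h1 := congrFun hc (a k)
    simp only [Finset.sum_apply, Pi.smul_apply, smul_eq_mul, Pi.zero_apply] at h1
    rw [Finset.sum_eq_single k] at h1
    · rw [hFa, if_pos rfl, mul_one] at h1
      exact h1
    · intro j _ hj
      rw [hFa, if_neg (Ne.symm hj), mul_zero]
    · intro h
      exact absurd (Finset.mem_univ k) h
  have hliW : LinearIndependent ℂ (fun k => (⟨F k, hFW k⟩ : W)) := by
    apply LinearIndependent.of_comp W.subtype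
    exact hliF
  have h1 := hliW.fintype_card_le_finrank
  have : Finite (Surv q) := inferInstance
  have h2 : Module.finrank ℂ W ≤ Nat.card (Surv q) := by
    have hfin : ((fun χ : DirichletCharacter ℂ q => fun b : (ZMod q)ˣ => χ (b : ZMod q)) '' Surv q).Finite :=
      Set.toFinite _
    have := hfin.fintype
    refine (finrank_span_le_card _).trans ?_
    rw [Set.toFinset_card, ← Nat.card_eq_fintype_card, Nat.card_coe_set_eq, Nat.card_coe_set_eq]
    exact Set.ncard_image_le (Set.toFinite _)
  exact h1.trans h2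

end Pool.Agent.N774.LR
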