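import Pool.Agent.N774.LR.Chr

/-!
# The values of a functional at the logarithms of the Gamma values are combinations of few characters
-/

set_option autoImplicit false

open Real

namespace Pool.Agent.N774.LR

/-- the odd characters modulo `q` all of whose Euler factors at the primes dividing `q` do not vanish -/
def Surv (q : ℕ) : Set (DirichletCharacter ℂ q) :=
  {χ | χ.Odd ∧ ∀ p : ℕ, p.Prime → p ∣ q → χ.primitiveCharacter p ≠ 1}

variable {l : ℝ →ₗ[ℚ] ℂ} (hl : ∀ x ∈ Lam K0, l x = 0)

include hl

/-- the Fourier coefficients -/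
theorem coef {q : ℕ} (hq : 2 < q) (χ : DirichletCharacter ℂ q) (hχ : χ ∉ Surv q) :
    ∑ y ∈ Finset.range q, χ⁻¹ (y : ZMod q) * H l ((y : ℝ) / q) = 0 := by
  have : NeZero q := ⟨by omega⟩
  by_cases hodd : χ.Odd
  · have h1 : ∃ p : ℕ, p.Prime ∧ p ∣ q ∧ χ.primitiveCharacter p = 1 := by
      by_contra hcon
      push Not at hcon
      exact hχ ⟨hodd, hcon⟩
    obtain ⟨p, hp, hpq, h1⟩ := h1
    have : Fact p.Prime := ⟨hp⟩
    rw [← DirichletCharacter.mem_subgroupOfPrimitiveMapToOne_iff, DirichletCharacter.subgroupOfPrimitiveMapToOne,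
      Subgroup.mem_map] at h1
    obtain ⟨ψ, h2, h3⟩ := h1
    rw [DirichletCharacter.mem_annihilator_iff] at h2
    have h4 : ψ (p : ZMod (q / p ^ q.factorization p)) = 1 := by
      have := h2 _ rfl
      rwa [ZMod.coe_unitOfCoprime] at this
    obtain ⟨m, hm⟩ : ∃ m, m = q / p ^ q.factorization p := ⟨_, rfl⟩
    have hmq : m ∣ q := hm ▸ Nat.ordCompl_dvd q p
    have hcop : Nat.Coprime p m := hm ▸ Nat.coprime_ordCompl hp (by omega)
    have hqm : q = p ^ q.factorization p * m := by
      rw [hm, Nat.ordProj_mul_ordCompl_eq_self]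
    have hv : q.factorization p ≠ 0 := by
      have := (Nat.Prime.factorization_pos_of_dvd hp (by omega) hpq)
      omega
    obtain ⟨v, hv'⟩ := Nat.exists_eq_succ_of_ne_zero hv
    subst hm
    have hm1 : 1 < q / p ^ q.factorization p := by
      by_contra hcon
      have h5 : q / p ^ q.factorization p = 1 := by
        have := Nat.ordCompl_pos p (show q ≠ 0 by omega)
        omega
      have h6 : ψ = 1 := DirichletCharacter.level_one' ψ h5
      rw [h6, map_one] at h3
      have h7 : χ (-1) = 1 := by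
        rw [← h3]
        exact MulChar.one_apply (isUnit_one.neg)
      have h8 : χ (-1) = -1 := hodd
      rw [h7] at h8
      norm_num at h8
    have h5 : ∀ y ∈ Finset.range q, χ⁻¹ (y : ZMod q) * H l ((y : ℝ) / q) =
        (if Nat.Coprime y q then ψ⁻¹ (y : ZMod (q / p ^ q.factorization p)) * H l ((y : ℝ) / q) else 0) := by
      intro y _
      by_cases hy : Nat.Coprime y q
      · rw [if_pos hy]
        congr 1
        have h6 : χ⁻¹ = DirichletCharacter.changeLevel hmq ψ⁻¹ := by
          rw [← h3, map_inv]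
        have h7 := DirichletCharacter.changeLevel_eq_cast_of_dvd' ψ⁻¹ hmq (a := (y : ℤ))
          (Nat.isCoprime_iff_coprime.2 hy)
        rw [h6]
        exact_mod_cast h7
      · rw [if_neg hy]
        have h6 : χ⁻¹ (y : ZMod q) = 0 := by
          apply MulChar.map_nonunit
          rw [ZMod.isUnit_iff_coprime]
          exact hy
        rw [h6, zero_mul]
    rw [Finset.sum_congr rfl h5, S_unit hl hm1 hp (v := v) (by rw [← Nat.succ_eq_add_one, ← hv']; exact hqm)]
    have h6 : ψ⁻¹ (p : ZMod (q / p ^ q.factorization p)) = 1 := by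
      rw [MulChar.inv_apply_eq_inv', h4, inv_one]
    rw [h6, sub_self, zero_mul]
  · refine S_even hl (by omega) χ⁻¹ ?_
    have h1 : χ (-1) = 1 := by
      rcases χ.even_or_odd with h | h
      · exact h
      · exact absurd h hodd
    rw [MulChar.inv_apply_eq_inv', h1, inv_one]

/-- the function on the classes prime to `q` is a combination of the characters in `Surv` -/
theorem mem_span {q : ℕ} (hq : 2 < q) :
    (fun b : (ZMod q)ˣ => H l (((b : ZMod q).val : ℝ) / q)) ∈
      Submodule.span ℂ ((fun χ : DirichletCharacter ℂ q => fun b : (ZMod q)ˣ => χ (b : ZMod q)) '' Surv q) := by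
  classical
  have : NeZero q := ⟨by omega⟩
  have hφ : (q.totient : ℂ) ≠ 0 := by
    have := Nat.totient_pos.2 (show 0 < q by omega)
    exact_mod_cast this.ne'
  have h1 : (fun b : (ZMod q)ˣ => H l (((b : ZMod q).val : ℝ) / q)) =
      ∑ χ : DirichletCharacter ℂ q, ((q.totient : ℂ)⁻¹ * ∑ y ∈ Finset.range q, χ⁻¹ (y : ZMod q) * H l ((y : ℝ) / q)) •
        (fun b : (ZMod q)ˣ => χ (b : ZMod q)) := by
    funext b
    rw [Finset.sum_apply]
    simp only [Pi.smul_apply, smul_eq_mul]
    have h2 : ∀ χ : DirichletCharacter ℂ q, (q.totient : ℂ)⁻¹ *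
        (∑ y ∈ Finset.range q, χ⁻¹ (y : ZMod q) * H l ((y : ℝ) / q)) * χ (b : ZMod q) =
        (q.totient : ℂ)⁻¹ * ∑ y ∈ Finset.range q, (χ⁻¹ (y : ZMod q) * χ (b : ZMod q)) * H l ((y : ℝ) / q) := by
      intro χ
      rw [mul_assoc, Finset.sum_mul]
      congr 1
      refine Finset.sum_congr rfl fun y _ => ?_
      ring
    rw [Finset.sum_congr rfl (fun χ _ => h2 χ), ← Finset.mul_sum, Finset.sum_comm]
    have h3 : ∀ y ∈ Finset.range q, ∑ χ : DirichletCharacter ℂ q, (χ⁻¹ (y : ZMod q) * χ (b : ZMod q)) * H l ((y : ℝ) / q) =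
        if y = (b : ZMod q).val then (q.totient : ℂ) * H l ((y : ℝ) / q) else 0 := by
      intro y hy
      rw [Finset.mem_range] at hy
      rw [← Finset.sum_mul]
      by_cases hyu : IsUnit (y : ZMod q)
      · have h4 : ∑ χ : DirichletCharacter ℂ q, χ⁻¹ (y : ZMod q) * χ (b : ZMod q) =
            if (y : ZMod q) = (b : ZMod q) then (q.totient : ℂ) else 0 := by
          rw [← DirichletCharacter.sum_char_inv_mul_char_eq ℂ hyu]
          refine Finset.sum_congr rfl fun χ _ => ?_
          congr 1
          rw [MulChar.inv_apply_eq_inv']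
          refine inv_eq_of_mul_eq_one_left ?_
          rw [← map_mul, ZMod.inv_mul_of_unit _ hyu, map_one]
        rw [h4]
        have h5 : ((y : ZMod q) = (b : ZMod q)) ↔ y = (b : ZMod q).val := by
          constructor
          · intro h
            rw [← h, ZMod.val_natCast_of_lt hy]
          · intro h
            rw [h, ZMod.natCast_zmod_val]
        by_cases h6 : y = (b : ZMod q).val
        · rw [if_pos h6, if_pos (h5.2 h6)]
        · rw [if_neg h6, if_neg (fun h => h6 (h5.1 h)), zero_mul]
      · have h4 : y ≠ (b : ZMod q).val := by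
          intro h
          apply hyu
          rw [h, ZMod.natCast_zmod_val]
          exact b.isUnit
        rw [if_neg h4]
        have h5 : ∀ χ : DirichletCharacter ℂ q, χ⁻¹ (y : ZMod q) * χ (b : ZMod q) = 0 := by
          intro χ
          rw [MulChar.map_nonunit _ hyu, zero_mul]
        rw [Finset.sum_congr rfl (fun χ _ => h5 χ)]
        simp
    rw [Finset.sum_congr rfl h3, Finset.sum_ite_eq', if_pos (Finset.mem_range.2 (ZMod.val_lt _)), ← mul_assoc,
      inv_mul_cancel₀ hφ, one_mul]
  rw [h1]
  refine Submodule.sum_mem _ fun χ _ => ?_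
  by_cases hχ : χ ∈ Surv q
  · exact Submodule.smul_mem _ _ (Submodule.subset_span ⟨χ, hχ, rfl⟩)
  · rw [coef hl hq χ hχ, mul_zero, zero_smul]
    exact Submodule.zero_mem _

end Pool.Agent.N774.LR
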