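import Mathlib

/-!
# Real numbers whose exponential is algebraic over a field
-/

set_option autoImplicit false

namespace Pool.Agent.N774.LR

/-- the real numbers `x` such that `exp x` is algebraic over `K`: a vector space over `ℚ` -/
def Lam (K : IntermediateField ℚ ℂ) : Submodule ℚ ℝ where
  carrier := {x | IsAlgebraic K ((Real.exp x : ℝ) : ℂ)}
  zero_mem' := by
    simp only [Set.mem_ofPred_eq, Real.exp_zero, Complex.ofReal_one]
    exact isAlgebraic_one
  add_mem' := by
    intro x y hx hy
    simp only [Set.mem_ofPred_eq] at *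
    rw [Real.exp_add, Complex.ofReal_mul]
    exact hx.mul hy
  smul_mem' := by
    intro c x hx
    simp only [Set.mem_ofPred_eq] at *
    have hden : (c.den : ℝ) ≠ 0 := by exact_mod_cast c.den_ne_zero
    have h1 : ((Real.exp (c • x) : ℝ) : ℂ) ^ c.den = ((Real.exp x : ℝ) : ℂ) ^ c.num := by
      rw [← Complex.ofReal_pow, ← Complex.ofReal_zpow]
      congr 1
      rw [← Real.exp_nat_mul, ← Real.rpow_intCast, ← Real.exp_mul, mul_comm x]
      congr 1
      rw [Rat.smul_def, ← mul_assoc]
      congr 1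
      have h2 : (c.den : ℝ) * ((c : ℚ) : ℝ) = c.num := by
        have := Rat.mul_den_eq_num c
        have h3 : ((c * (c.den : ℚ) : ℚ) : ℝ) = ((c.num : ℚ) : ℝ) := by rw [this]
        push_cast at h3
        linarith
      exact h2
    have h3 : IsAlgebraic K (((Real.exp x : ℝ) : ℂ) ^ c.num) := by
      rcases Int.eq_nat_or_neg c.num with ⟨n, hn | hn⟩
      · rw [hn, zpow_natCast]
        exact hx.pow n
      · rw [hn, zpow_neg, zpow_natCast]
        exact (hx.pow n).inv
    rw [← h1] at h3
    exact h3.of_pow c.den_pos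

theorem mem_Lam {K : IntermediateField ℚ ℂ} {x : ℝ} : x ∈ Lam K ↔ IsAlgebraic K ((Real.exp x : ℝ) : ℂ) := Iff.rfl

theorem log_mem {K : IntermediateField ℚ ℂ} {z : ℝ} (hz : 0 < z) (h : IsAlgebraic K (z : ℂ)) :
    Real.log z ∈ Lam K := by
  rw [mem_Lam, Real.exp_log hz]
  exact h

theorem Lam_mono {K K' : IntermediateField ℚ ℂ} (h : K ≤ K') : Lam K ≤ Lam K' := by
  intro x hx
  rw [mem_Lam] at *
  let _ : Algebra K K' := (IntermediateField.inclusion h).toRingHom.toAlgebra
  have : IsScalarTower K K' ℂ := IsScalarTower.of_algebraMap_eq fun _ => rfl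
  exact hx.tower_top K'

/-- numbers which are algebraic over `ℚ` -/
theorem alg_of_rat {K : IntermediateField ℚ ℂ} {z : ℂ} (h : IsAlgebraic ℚ z) : IsAlgebraic K z :=
  h.tower_top K

end Pool.Agent.N774.LR
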