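import Pool.Agent.N774.LR.Lam
import Pool.Agent.R260.LrA

/-!
# The functional equations of the Gamma function for a functional which kills the logarithms of the numbers algebraic
over `ℚ(π)`
-/

set_option autoImplicit false

open Real

namespace Pool.Agent.N774.LR

/-- the field `ℚ(π)` -/
noncomputable def K0 : IntermediateField ℚ ℂ := IntermediateField.adjoin ℚ {(π : ℂ)}

/-- the value of a functional at `log Γ(x)` -/
noncomputable def H (l : ℝ →ₗ[ℚ] ℂ) (x : ℝ) : ℂ := l (Real.log (Real.Gamma x))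

theorem H_one (l : ℝ →ₗ[ℚ] ℂ) : H l 1 = 0 := by
  unfold H
  simp

variable {l : ℝ →ₗ[ℚ] ℂ} (hl : ∀ x ∈ Lam K0, l x = 0)

include hl

theorem H_add_one {x : ℚ} (hx : 0 < x) : H l ((x : ℝ) + 1) = H l x := by
  have hx' : (0 : ℝ) < x := by exact_mod_cast hx
  unfold H
  rw [Real.Gamma_add_one hx'.ne', Real.log_mul hx'.ne' (Real.Gamma_pos_of_pos hx').ne', map_add, hl, zero_add]
  refine log_mem hx' ?_
  have : (((x : ℚ) : ℝ) : ℂ) = algebraMap ℚ ℂ x := by simp
  rw [this]
  exact alg_of_rat (isAlgebraic_algebraMap x)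

theorem H_add_nat {x : ℚ} (hx : 0 < x) (n : ℕ) : H l ((x : ℝ) + n) = H l x := by
  induction n with
  | zero => simp
  | succ n ih =>
    have h1 := H_add_one hl (x := x + n) (by positivity)
    push_cast at h1 ⊢
    rw [← add_assoc, h1, ih]

theorem H_nat {n : ℕ} (hn : 0 < n) : H l (n : ℝ) = 0 := by
  obtain ⟨k, rfl⟩ := Nat.exists_eq_succ_of_ne_zero hn.ne'
  have h1 := H_add_nat hl (x := 1) one_pos k
  push_cast at h1 ⊢
  rw [add_comm, h1, H_one l]

theorem H_refl {x : ℚ} (hx : 0 < x) (hx1 : x < 1) : H l (x : ℝ) + H l (1 - (x : ℝ)) = 0 := by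
  have hx' : (0 : ℝ) < x := by exact_mod_cast hx
  have hx1' : (0 : ℝ) < 1 - x := by
    have : (x : ℝ) < 1 := by exact_mod_cast hx1
    linarith
  unfold H
  rw [← map_add, ← Real.log_mul (Real.Gamma_pos_of_pos hx').ne' (Real.Gamma_pos_of_pos hx1').ne',
    Real.Gamma_mul_Gamma_one_sub, hl]
  have hsin : 0 < Real.sin (π * x) := by
    refine Real.sin_pos_of_pos_of_lt_pi (by positivity) ?_
    nlinarith [Real.pi_pos]
  refine log_mem (by positivity) ?_
  rw [Complex.ofReal_div, Complex.ofReal_sin]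
  refine IsAlgebraic.mul ?_ (IsAlgebraic.inv ?_)
  · have h1 : (π : ℂ) ∈ K0 := IntermediateField.subset_adjoin _ _ (Set.mem_singleton _)
    exact isAlgebraic_algebraMap (⟨(π : ℂ), h1⟩ : K0)
  · refine alg_of_rat ?_
    have h1 := Complex.isAlgebraic_sin_rat_mul_pi x
    have h2 : (((π * (x : ℝ) : ℝ)) : ℂ) = (x : ℂ) * (π : ℂ) := by
      push_cast
      ring
    rw [h2]
    exact h1.extendScalars (Int.cast_injective)

/-- the sum of the values at `j / m`, `1 ≤ j ≤ m` -/
theorem H_sum {m : ℕ} (hm : 0 < m) : ∑ j ∈ Finset.range m, H l (((1 : ℝ) + j) / m) = 0 := by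
  have hm' : (0 : ℝ) < m := by exact_mod_cast hm
  obtain ⟨k, rfl⟩ := Nat.exists_eq_succ_of_ne_zero hm.ne'
  rw [Finset.sum_range_succ]
  have h1 : H l (((1 : ℝ) + k) / (k.succ : ℕ)) = 0 := by
    have : ((1 : ℝ) + k) / (k.succ : ℕ) = 1 := by
      rw [div_eq_one_iff_eq hm'.ne']
      push_cast
      ring
    rw [this, H_one l]
  rw [h1, add_zero]
  have h2 : ∑ j ∈ Finset.range k, H l (((1 : ℝ) + j) / (k.succ : ℕ)) =
      ∑ j ∈ Finset.range k, H l (1 - ((1 : ℝ) + j) / (k.succ : ℕ)) := by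
    rw [← Finset.sum_range_reflect]
    refine Finset.sum_congr rfl fun j hj => ?_
    rw [Finset.mem_range] at hj
    congr 1
    have h3 : ((k - 1 - j : ℕ) : ℝ) = k - 1 - j := by
      rw [Nat.sub_sub, Nat.cast_sub (by omega)]
      push_cast
      ring
    rw [h3]
    field_simp
    push_cast
    ring
  have h3 : ∑ j ∈ Finset.range k, H l (((1 : ℝ) + j) / (k.succ : ℕ)) +
      ∑ j ∈ Finset.range k, H l (1 - ((1 : ℝ) + j) / (k.succ : ℕ)) = 0 := by
    rw [← Finset.sum_add_distrib]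
    refine Finset.sum_eq_zero fun j hj => ?_
    rw [Finset.mem_range] at hj
    have h4 := H_refl hl (x := ((1 : ℚ) + j) / (k.succ : ℕ)) (by positivity) (by
      rw [div_lt_one (by positivity)]
      push_cast
      have : (j : ℚ) < k := by exact_mod_cast hj
      linarith)
    push_cast at h4 ⊢
    exact h4
  rw [← h2] at h3
  have h4 : (2 : ℂ) * ∑ j ∈ Finset.range k, H l (((1 : ℝ) + j) / (k.succ : ℕ)) = 0 := by
    linear_combination h3
  simpa using h4

/-- the multiplication formula -/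
theorem H_mul {m : ℕ} (hm : 0 < m) {x : ℚ} (hx : 0 < x) :
    H l (x : ℝ) = ∑ j ∈ Finset.range m, H l (((x : ℝ) + j) / m) := by
  have hm' : (0 : ℝ) < m := by exact_mod_cast hm
  obtain ⟨C, hC, h⟩ := Pool.Agent.R260.Lr.gauss m hm
  have key : ∀ y : ℚ, 0 < y → H l (y : ℝ) = l (Real.log C) + ∑ j ∈ Finset.range m, H l (((y : ℝ) + j) / m) := by
    intro y hy
    have hy' : (0 : ℝ) < y := by exact_mod_cast hy
    have hpos : ∀ j : ℕ, 0 < Real.Gamma (((y : ℝ) + j) / m) := fun j => Real.Gamma_pos_of_pos (by positivity)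
    have hlogm : l (Real.log ((m : ℝ) ^ (y : ℝ))) = 0 := by
      apply hl
      rw [Real.log_rpow hm']
      have : (y : ℝ) * Real.log m = y • Real.log m := by rw [Rat.smul_def]
      rw [this]
      refine Submodule.smul_mem _ _ (log_mem hm' ?_)
      have : (((m : ℕ) : ℝ) : ℂ) = algebraMap ℚ ℂ m := by simp
      rw [this]
      exact alg_of_rat (isAlgebraic_algebraMap _)
    unfold H
    rw [h y hy', Real.log_mul (by positivity) (Finset.prod_pos fun j _ => hpos j).ne', Real.log_mul hC.ne' (by positivity),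
      Real.log_prod (fun j _ => (hpos j).ne'), map_add, map_add, map_sum, hlogm, add_zero]
  have h1 := key 1 one_pos
  have h2 := H_sum hl hm
  have h3 := H_one l
  push_cast at h1
  rw [h3, h2, add_zero] at h1
  rw [key x hx, ← h1, zero_add]

end Pool.Agent.N774.LR
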