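import Pool.Agent.N774.LR.Dim

/-!
# The transcendence degree
-/

set_option autoImplicit false

open Real Cardinal

namespace Pool.Agent.N774.LR

/-- a field whose elements are algebraic over `k(S)` has transcendence degree at most `|S|` -/
theorem trdeg_le_gen {k L : Type} [Field k] [Field L] [Algebra k L] (S : Set L) (F : IntermediateField k L)
    (h : ∀ x ∈ F, IsAlgebraic (IntermediateField.adjoin k S) x) : Algebra.trdeg k F ≤ #S := by
  -- the relative algebraic closure
  set E : IntermediateField k L := (algebraicClosure (IntermediateField.adjoin k S) L).restrictScalars k with hE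
  have hmemE : ∀ x : L, x ∈ E ↔ IsAlgebraic (IntermediateField.adjoin k S) x := by
    intro x
    rw [hE, IntermediateField.mem_restrictScalars, mem_algebraicClosure_iff]
  have hFE : F ≤ E := fun x hx => (hmemE x).2 (h x hx)
  refine (trdeg_le_of_injective (IntermediateField.inclusion hFE) (IntermediateField.inclusion_injective hFE)).trans ?_
  have hSE : S ⊆ E := by
    intro x hx
    refine (hmemE x).2 ?_
    exact isAlgebraic_algebraMap (⟨x, IntermediateField.subset_adjoin k S hx⟩ : IntermediateField.adjoin k S)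
  set s : Set E := Subtype.val ⁻¹' S with hs
  have himg : E.val '' s = S := by
    ext x
    constructor
    · rintro ⟨y, hy, rfl⟩
      exact hy
    · intro hx
      exact ⟨⟨x, hSE hx⟩, hx, rfl⟩
  have hmap : (Algebra.adjoin k s).map E.val = Algebra.adjoin k S := by
    rw [AlgHom.map_adjoin, himg]
  let f : Algebra.adjoin k s →ₐ[k] Algebra.adjoin k S :=
    ((E.val).comp (Algebra.adjoin k s).val).codRestrict (Algebra.adjoin k S) (fun x => by
      rw [← hmap]
      exact ⟨x, x.2, rfl⟩)
  have hf : Function.Surjective f := by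
    rintro ⟨y, hy⟩
    rw [← hmap] at hy
    obtain ⟨x, hx, rfl⟩ := hy
    exact ⟨⟨x, hx⟩, rfl⟩
  have halg : Algebra.IsAlgebraic (Algebra.adjoin k s) E := by
    refine ⟨fun a => ?_⟩
    have h1 : IsAlgebraic (Algebra.adjoin k S) (E.val a) :=
      IntermediateField.isAlgebraic_adjoin_iff.1 ((hmemE _).1 a.2)
    exact IsAlgebraic.of_ringHom_of_comp_eq (f := (f : Algebra.adjoin k s →+* Algebra.adjoin k S))
      (g := (E.val : E →+* L)) h1 hf E.val.injective rfl
  refine (Algebra.IsAlgebraic.trdeg_le_cardinalMk k s).trans ?_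
  rw [← himg]
  exact (Cardinal.mk_image_eq E.val.injective).ge

theorem trdeg_le (S : Set ℂ) (F : IntermediateField ℚ ℂ)
    (h : ∀ x ∈ F, IsAlgebraic (IntermediateField.adjoin ℚ S) x) : Algebra.trdeg ℚ F ≤ #S := by
  have h1 := trdeg_le_gen S F h
  have h2 : (DivisionRing.toRatAlgebra : Algebra ℚ F) = F.algebra' := Subsingleton.elim _ _
  rw [h2]
  exact h1

/-- the field generated over `ℚ` by `π` and the numbers `Γ(a / q)`, `1 ≤ a ≤ q - 1`, `gcd(a, q) = 1` -/
noncomputable def F (q : ℕ) : IntermediateField ℚ ℂ :=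
  IntermediateField.adjoin ℚ
    ({(π : ℂ)} ∪ {z : ℂ | ∃ a : ℕ, 1 ≤ a ∧ a ≤ q - 1 ∧ Nat.gcd a q = 1 ∧ z = Complex.Gamma ((a : ℂ) / (q : ℂ))})

theorem gamma_alg {q : ℕ} (hq : 2 < q) (T : Finset (ZMod q)ˣ)
    (hT : ∀ u, cls q u ∈ Submodule.span ℚ (cls q '' (T : Set (ZMod q)ˣ))) (K : IntermediateField ℚ ℂ)
    (hπ : (π : ℂ) ∈ K) (hK : ∀ u ∈ T, ((Real.Gamma (((u : ZMod q).val : ℝ) / q) : ℝ) : ℂ) ∈ K) (u : (ZMod q)ˣ) :
    IsAlgebraic K ((Real.Gamma (((u : ZMod q).val : ℝ) / q) : ℝ) : ℂ) := by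
  have : NeZero q := ⟨by omega⟩
  have : Fact (1 < q) := ⟨by omega⟩
  have hpos : ∀ u : (ZMod q)ˣ, 0 < Real.Gamma (((u : ZMod q).val : ℝ) / q) := by
    intro u
    apply Real.Gamma_pos_of_pos
    have h1 : (u : ZMod q).val ≠ 0 := by
      rw [Ne, ZMod.val_eq_zero]
      exact u.ne_zero
    have h2 : (0 : ℝ) < ((u : ZMod q).val : ℝ) := by exact_mod_cast Nat.pos_of_ne_zero h1
    have h3 : (0 : ℝ) < q := by exact_mod_cast (by omega : 0 < q)
    positivity
  have hK0 : K0 ≤ K := by
    rw [K0, IntermediateField.adjoin_le_iff]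
    rintro _ rfl
    exact hπ
  have h1 : Submodule.span ℚ (cls q '' (T : Set (ZMod q)ˣ)) ≤ (Lam K).map (Lam K0).mkQ := by
    rw [Submodule.span_le]
    rintro _ ⟨t, ht, rfl⟩
    refine ⟨Real.log (Real.Gamma (((t : ZMod q).val : ℝ) / q)), ?_, rfl⟩
    refine log_mem (hpos t) ?_
    exact isAlgebraic_algebraMap (⟨_, hK t ht⟩ : K)
  obtain ⟨y, hy, hyu⟩ := h1 (hT u)
  have h2 : Real.log (Real.Gamma (((u : ZMod q).val : ℝ) / q)) - y ∈ Lam K0 := by
    rw [← Submodule.Quotient.eq]
    exact hyu.symm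
  have h3 : Real.log (Real.Gamma (((u : ZMod q).val : ℝ) / q)) ∈ Lam K := by
    have := Submodule.add_mem _ (Lam_mono hK0 h2) hy
    rwa [sub_add_cancel] at this
  rw [mem_Lam, Real.exp_log (hpos u)] at h3
  exact h3

/-- the upper bound for the transcendence degree -/
theorem trdeg_F_le {q : ℕ} (hq : 2 < q) : Algebra.trdeg ℚ (F q) ≤ ((1 + Nat.card (Surv q) : ℕ) : Cardinal) := by
  classical
  have : NeZero q := ⟨by omega⟩
  obtain ⟨T, hT1, hT2⟩ := exists_gen hq
  set γ : (ZMod q)ˣ → ℂ := fun u => ((Real.Gamma (((u : ZMod q).val : ℝ) / q) : ℝ) : ℂ) with hγ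
  set S : Finset ℂ := insert (π : ℂ) (T.image γ) with hS
  have hScard : S.card ≤ 1 + Nat.card (Surv q) := by
    refine (Finset.card_insert_le _ _).trans ?_
    have := Finset.card_image_le (s := T) (f := γ)
    omega
  have h1 : ∀ x ∈ F q, IsAlgebraic (IntermediateField.adjoin ℚ (S : Set ℂ)) x := by
    have h2 : F q ≤ (algebraicClosure (IntermediateField.adjoin ℚ (S : Set ℂ)) ℂ).restrictScalars ℚ := by
      rw [F, IntermediateField.adjoin_le_iff]
      have hπ : (π : ℂ) ∈ IntermediateField.adjoin ℚ (S : Set ℂ) :=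
        IntermediateField.subset_adjoin ℚ _ (by rw [hS]; simp)
      rintro z (hz | ⟨a, ha1, ha2, ha3, rfl⟩)
      · rw [Set.mem_singleton_iff] at hz
        subst hz
        rw [SetLike.mem_coe, IntermediateField.mem_restrictScalars, mem_algebraicClosure_iff]
        exact isAlgebraic_algebraMap (⟨_, hπ⟩ : IntermediateField.adjoin ℚ (S : Set ℂ))
      · rw [SetLike.mem_coe, IntermediateField.mem_restrictScalars, mem_algebraicClosure_iff]
        have h3 := gamma_alg hq T hT2 (IntermediateField.adjoin ℚ (S : Set ℂ)) hπ (by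
          intro u hu
          refine IntermediateField.subset_adjoin ℚ _ ?_
          rw [hS]
          exact Finset.mem_coe.2 (Finset.mem_insert_of_mem (Finset.mem_image_of_mem γ hu))) (ZMod.unitOfCoprime a ha3)
        rw [ZMod.coe_unitOfCoprime, ZMod.val_natCast_of_lt (by omega)] at h3
        rw [← Complex.Gamma_ofReal] at h3
        push_cast at h3
        exact h3
    intro x hx
    have := h2 hx
    rwa [IntermediateField.mem_restrictScalars, mem_algebraicClosure_iff] at this
  refine (trdeg_le (S : Set ℂ) (F q) h1).trans ?_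
  have h2 : #(S : Set ℂ) = S.card := by simp
  rw [h2]
  exact_mod_cast hScard

end Pool.Agent.N774.LR
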